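import Pool.Agent.Results.MP_1b82cc_an.ChordalMergelyan

/-!
Chordal polynomial approximation on disjoint closed discs converging to a point: the question as
posed, derived from the hand-in `ChordalMergelyan`.
-/

open Set Metric Filter Topology Pool.Agent.Lib.MP_1b82cc_an

namespace Pool.Agent.Lib.MP_1b82cc_an.Variants.ChordalDiscs

theorem result
    (P : ℂ) (c : ℕ → ℂ) (r : ℕ → ℝ) (hr : ∀ n, 0 < r n)
    (hdisj : Pairwise fun m n => Disjoint (closedBall (c m) (r m)) (closedBall (c n) (r n)))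
    (hconv : ∀ ε > 0, ∃ N, ∀ n ≥ N, ∀ z ∈ closedBall (c n) (r n), ‖z - P‖ ≤ ε)
    (f : ℂ → OnePoint ℂ) (hf : InClass ({P} ∪ ⋃ n, closedBall (c n) (r n)) f) :
    ∃ p : ℕ → Polynomial ℂ, ∀ ε > 0, ∃ N, ∀ n ≥ N,
      ∀ z ∈ ({P} ∪ ⋃ n, closedBall (c n) (r n) : Set ℂ),
        chordal ((p n).eval z : ℂ) (f z) < ε := by
  have hconv' : ∀ ε > 0, ∃ N, ∀ n ≥ N, closedBall (c n) (r n) ⊆ closedBall P ε := by
    intro ε hε
    obtain ⟨N, hN⟩ := hconv ε hε
    exact ⟨N, fun n hn z hz => by simpa [dist_eq_norm] using hN n hn z hz⟩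
  have hL := isCompact_all hconv'
  exact Pool.Agent.Results.MP_1b82cc_an.ChordalMergelyan.result _ hL
    ⟨nonempty_compl.2 hL.ne_univ, isPreconnected_compl hr hdisj hconv'⟩ f hf

end Pool.Agent.Lib.MP_1b82cc_an.Variants.ChordalDiscs
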