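import Pool.Agent.Lib.MP_1b82cc_an.Defs2
import Pool.Agent.Lib.MP_1b82cc_an.LC2

/-!
Chordal polynomial approximation on compact sets whose components are locally connected or have
no interior; the property passes from the components to the set.
-/

open Set Pool.Agent.Lib.MP_1b82cc_an

theorem Pool.Agent.Lib.MP_1b82cc_an.Variants.Components.result
    (L : Set ℂ) (hL : IsCompact L) (hc : IsConnected Lᶜ) (f : ℂ → OnePoint ℂ) (hf : InClass L f)
    (hK : ∀ x ∈ L, LocallyConnectedSpace (connectedComponentIn L x) ∨
      interior (connectedComponentIn L x) = ∅ ∨ PolyLimit (connectedComponentIn L x) f) :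
    PolyLimit L f := by
  have key : ∀ ε > 0, Near L f ε := fun ε hε => near_of_components hL hf.1 fun x hx => by
    have h1 := isCompact_component hL hx
    have h2 := connectedComponentIn_subset L x
    have h3 := compl_component hL hc.isPreconnected hx
    rcases hK x hx with h | h | ⟨p, hp⟩
    · exact near_locConn h1 h3 (hf.mono h2) hε
    · exact near_thin h1 h3 h (hf.1.mono h2) hε
    · obtain ⟨N, hN⟩ := hp ε hε
      exact ⟨univ, fun z => (p N).eval z, isOpen_univ, subset_univ _,
        (p N).differentiable.differentiableOn,
        fun z hz => (le_chordal _ _).trans_lt (hN N le_rfl z hz)⟩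
  choose p hp using fun n : ℕ => (key (1 / ((n : ℝ) + 1) / 4) (by positivity)).poly hL
    hc.isPreconnected Nat.one_div_pos_of_nat
  refine ⟨p, fun ε hε => ?_⟩
  obtain ⟨N, hN⟩ := exists_nat_one_div_lt hε
  exact ⟨N, fun n hn z hz => (hp n z hz).trans ((Nat.one_div_le_one_div hn).trans_lt hN)⟩
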