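import Pool.Agent.Results.MP_1b82cc_an.ChordalMergelyan

/-!
Polynomial approximation without zeros (the conjecture of Andersson), derived from the chordal
form of the theorem of Mergelyan.
-/

open Set Filter Topology OnePoint Polynomial Pool.Agent.Lib.MP_1b82cc_an

namespace Pool.Agent.Lib.MP_1b82cc_an.Variants.ZeroFree

/-- The reciprocal with values in the sphere. -/
noncomputable def recip (a : ℂ) : OnePoint ℂ := if a = 0 then ∞ else (a⁻¹ : ℂ)

lemma continuous_recip : Continuous recip := by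
  refine continuous_iff_continuousAt.2 fun a => ?_
  by_cases ha : a = 0
  · subst ha
    rw [ContinuousAt, ← nhdsNE_sup_pure, tendsto_sup]
    have e : recip 0 = ∞ := if_pos rfl
    refine ⟨?_, tendsto_pure_nhds _ _⟩
    rw [e]
    have h1 : Tendsto (fun a : ℂ => a⁻¹) (𝓝[≠] 0) (coclosedCompact ℂ) := by
      rw [coclosedCompact_eq_cocompact, ← Metric.cobounded_eq_cocompact]
      exact tendsto_inv₀_nhdsNE_zero
    refine (OnePoint.tendsto_coe_infty.comp h1).congr' ?_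
    filter_upwards [self_mem_nhdsWithin] with a ha
    exact (if_neg ha).symm
  · refine (OnePoint.continuous_coe.continuousAt.comp (continuousAt_inv₀ ha)).congr ?_
    filter_upwards [isOpen_ne.mem_nhds ha] with b hb
    exact (if_neg hb).symm

lemma chordal_recip (q a : ℂ) : chordal q (recip a) =
    ‖q * a - 1‖ / (√(1 + ‖q‖ ^ 2) * √(1 + ‖a‖ ^ 2)) := by
  unfold recip
  split_ifs with ha
  · subst ha
    simp [chordal]
  · show ‖q - a⁻¹‖ / (√(1 + ‖q‖ ^ 2) * √(1 + ‖a⁻¹‖ ^ 2)) = _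
    have h0 : 0 < ‖a‖ := norm_pos_iff.2 ha
    have e1 : √(1 + ‖a‖ ^ 2) = √(1 + ‖a⁻¹‖ ^ 2) * ‖a‖ := by
      rw [← Real.sqrt_sq h0.le, ← Real.sqrt_mul (by positivity), Real.sqrt_sq h0.le, norm_inv]
      congr 1
      field_simp
      ring
    have e2 : ‖q * a - 1‖ = ‖q - a⁻¹‖ * ‖a‖ := by
      rw [← norm_mul, sub_mul, inv_mul_cancel₀ ha]
    rw [e1, e2, ← mul_assoc, mul_div_mul_right _ _ h0.ne']

theorem result (K : Set ℂ) (hK : IsCompact K) (hc : IsConnected Kᶜ) (f : ℂ → ℂ)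
    (hf : ContinuousOn f K) (hd : DifferentiableOn ℂ f (interior K))
    (h0 : ∀ z ∈ interior K, f z ≠ 0) (ε : ℝ) (hε : 0 < ε) :
    ∃ p : ℂ[X], ∀ z ∈ K, p.eval z ≠ 0 ∧ ‖p.eval z - f z‖ < ε := by
  rcases K.eq_empty_or_nonempty with rfl | hne
  · exact ⟨0, by simp⟩
  have hg : InClass K fun z => recip (f z) := by
    refine ⟨continuous_recip.comp_continuousOn hf, fun z _ => Or.inr ⟨fun w => (f w)⁻¹, ?_, ?_⟩⟩
    · exact (hd.inv h0).mono (connectedComponentIn_subset _ _)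
    · exact fun w hw => if_neg (h0 w (connectedComponentIn_subset _ _ hw))
  obtain ⟨B, hB⟩ := hK.exists_bound_of_continuousOn hf
  obtain ⟨q, hq⟩ := Pool.Agent.Results.MP_1b82cc_an.ChordalMergelyan.result K hK hc _ hg
  set M := 1 + |B| with hM
  have hM1 : 1 ≤ M := by linarith [abs_nonneg B]
  set δ := min (1 / (4 * M ^ 2)) (ε / (16 * M ^ 2)) with hδ
  have hδ0 : 0 < δ := lt_min (by positivity) (by positivity)
  have hδ1 : δ * (4 * M ^ 2) ≤ 1 := (le_div_iff₀ (by positivity)).1 (min_le_left _ _)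
  have hδ2 : δ * (16 * M ^ 2) ≤ ε := (le_div_iff₀ (by positivity)).1 (min_le_right _ _)
  obtain ⟨N, hN⟩ := hq δ hδ0
  have key : ∀ z ∈ K, (q N).eval z ≠ 0 ∧ ‖((q N).eval z)⁻¹ - f z‖ ≤ ε / 2 := by
    intro z hz
    have h1 := hN N le_rfl z hz
    rw [chordal_recip, div_lt_iff₀ (by positivity)] at h1
    generalize (q N).eval z = w at *
    have a1 : ‖f z‖ ≤ M - 1 := by linarith [hB z hz, le_abs_self B]
    have a2 : √(1 + ‖f z‖ ^ 2) ≤ M :=
      Real.sqrt_le_iff.2 ⟨by positivity, by nlinarith [norm_nonneg (f z)]⟩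
    have a3 : √(1 + ‖w‖ ^ 2) ≤ 1 + ‖w‖ :=
      Real.sqrt_le_iff.2 ⟨by positivity, by nlinarith [norm_nonneg w]⟩
    have a4 : ‖w * f z - 1‖ ≤ δ * ((1 + ‖w‖) * M) := h1.le.trans (by gcongr)
    have a5 : 1 - ‖w‖ * M ≤ ‖w * f z - 1‖ := by
      have := norm_sub_norm_le (1 : ℂ) (w * f z)
      rw [norm_sub_rev, norm_one, norm_mul] at this
      nlinarith [norm_nonneg w]
    have a6 : δ * M ≤ 1 / 4 := by nlinarith
    have a7 : 1 ≤ 2 * M * ‖w‖ := by nlinarith [norm_nonneg w]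
    have w0 : 0 < ‖w‖ := by
      by_contra h
      have : ‖w‖ = 0 := le_antisymm (not_lt.1 h) (norm_nonneg w)
      rw [this] at a7
      linarith
    have w1 : w ≠ 0 := norm_pos_iff.1 w0
    refine ⟨w1, le_of_mul_le_mul_left ?_ w0⟩
    rw [← norm_mul, mul_sub, mul_inv_cancel₀ w1, norm_sub_rev]
    refine a4.trans ?_
    have a8 : 1 + ‖w‖ ≤ 3 * M * ‖w‖ := by nlinarith
    have a9 : δ * ((1 + ‖w‖) * M) ≤ δ * (3 * M * ‖w‖ * M) := by gcongr
    nlinarith
  obtain ⟨C, hC⟩ := hK.exists_bound_of_continuousOn (f := fun z => (q N).eval z)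
    (q N).continuous.continuousOn
  obtain ⟨p, hp⟩ := approx_inv hK hne hc.isPreconnected (q N) (fun z hz => (key z hz).1)
    (min (ε / 2) (1 + |C|)⁻¹) (lt_min (by positivity) (by positivity))
  refine ⟨p, fun z hz => ⟨fun e => ?_, ?_⟩⟩
  · have h1 := (hp z hz).trans_le (min_le_right _ _)
    rw [e, zero_sub, norm_neg, norm_inv] at h1
    exact h1.not_ge (inv_anti₀ (norm_pos_iff.2 (key z hz).1)
      (by linarith [hC z hz, le_abs_self C]))
  · have h1 := (hp z hz).trans_le (min_le_left _ _)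
    linarith [norm_sub_le_norm_sub_add_norm_sub (p.eval z) ((q N).eval z)⁻¹ (f z), (key z hz).2]

end Pool.Agent.Lib.MP_1b82cc_an.Variants.ZeroFree
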